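import Mathlib

/-!
Gromov-Hausdorff and Hausdorff distance of a subset of the circle to the circle agree as long as
the Hausdorff distance is at most `π/3`.
-/

open Real Set

namespace Pool.Agent.Results.MP_124474_gt.Main

/-- The circle of length `2π` with its arc-length metric. -/
abbrev S1 : Type := AddCircle (2 * Real.pi)

/-- `R ⊆ X × Y` is a correspondence. -/
def IsCorrespondence {X Y : Type*} (R : Set (X × Y)) : Prop :=
  (∀ x, ∃ y, (x, y) ∈ R) ∧ ∀ y, ∃ x, (x, y) ∈ R

/-- The Gromov-Hausdorff distance of two (bounded, nonempty) metric spaces: one half of the infimum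
of the numbers `δ` such that some correspondence has distortion at most `δ`. -/
noncomputable def ghDist (X Y : Type*) [MetricSpace X] [MetricSpace Y] : ℝ :=
  1 / 2 * sInf {δ : ℝ | 0 ≤ δ ∧ ∃ R : Set (X × Y), IsCorrespondence R ∧
    ∀ a ∈ R, ∀ b ∈ R, |dist a.1 b.1 - dist a.2 b.2| ≤ δ}

/-- The Hausdorff distance of `X ⊆ S^1` to `S^1`: `sup_p inf_{x ∈ X} d(p, x)`. -/
noncomputable def hDist (X : Set S1) : ℝ := ⨆ p : S1, Metric.infDist p X

local instance factTwoPi : Fact (0 < 2 * Real.pi) := ⟨by positivity⟩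

theorem norm_cases {t : ℝ} (ht : |t| ≤ 2 * π) :
    ‖(t : S1)‖ ≤ |t| ∧ (‖(t : S1)‖ = |t| ∨ ‖(t : S1)‖ = 2 * π - |t|) := by
  have hp := Real.pi_pos
  have hp2 : (2 * π : ℝ) ≠ 0 := by positivity
  have hpa : |2 * π| / 2 = π := by rw [abs_of_pos (by positivity)]; ring
  by_cases h : |t| ≤ π
  · have h1 : ‖(t : S1)‖ = |t| := (AddCircle.norm_coe_eq_abs_iff _ hp2).mpr (by rw [hpa]; exact h)
    exact ⟨h1.le, Or.inl h1⟩
  · push Not at h
    have key : ‖(t : S1)‖ = 2 * π - |t| := by
      rcases le_total 0 t with h0 | h0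
      · rw [abs_of_nonneg h0] at h ht ⊢
        have h2 : ((t - 2 * π : ℝ) : S1) = (t : S1) := by
          rw [AddCircle.coe_sub, AddCircle.coe_period, sub_zero]
        have h3 : |t - 2 * π| = 2 * π - t := by rw [abs_of_nonpos (by linarith)]; ring
        rw [← h2, (AddCircle.norm_coe_eq_abs_iff _ hp2).mpr (by rw [hpa, h3]; linarith), h3]
      · rw [abs_of_nonpos h0] at h ht ⊢
        have h2 : ((t + 2 * π : ℝ) : S1) = (t : S1) := by
          rw [AddCircle.coe_add, AddCircle.coe_period, add_zero]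
        have h3 : |t + 2 * π| = 2 * π + t := by rw [abs_of_nonneg (by linarith)]; ring
        rw [← h2, (AddCircle.norm_coe_eq_abs_iff _ hp2).mpr (by rw [hpa, h3]; linarith), h3]
        ring
    exact ⟨by rw [key]; linarith, Or.inr key⟩

theorem dist_antipode (p : S1) : dist p (p + (π : ℝ)) = π := by
  rw [dist_eq_norm]
  have h : p - (p + ((π : ℝ) : S1)) = ((-π : ℝ) : S1) := by
    rw [AddCircle.coe_neg]; abel
  have hp2 : (2 * π : ℝ) ≠ 0 := by positivity
  rw [h, (AddCircle.norm_coe_eq_abs_iff _ hp2).mpr, abs_neg, abs_of_pos Real.pi_pos]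
  rw [abs_neg, abs_of_pos Real.pi_pos, abs_of_pos (by positivity)]
  linarith

theorem dist_le_pi (p q : S1) : dist p q ≤ π := by
  rw [dist_eq_norm]
  have h := AddCircle.norm_le_half_period (2 * π) (x := p - q) (by positivity)
  rw [abs_of_pos (by positivity)] at h
  linarith

/-- The main lower bound. -/
theorem lower {X : Set S1} {R : Set (X × S1)} (hR : IsCorrespondence R) {δ : ℝ} (hδ0 : 0 ≤ δ)
    (hδ : ∀ a ∈ R, ∀ b ∈ R, |dist a.1 b.1 - dist a.2 b.2| ≤ δ) {c : S1} {r : ℝ}
    (hc : ∀ x ∈ X, r ≤ dist x c) (hr : δ < 2 * r) : 2 * π / 3 ≤ δ := by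
  by_contra hlt
  push Not at hlt
  have hp := Real.pi_pos
  choose f hf using hR.2
  -- coordinates
  let φ : S1 → ℝ := fun x => (AddCircle.equivIoc (2 * π) (-π) (x - c - (π : ℝ)) : ℝ)
  have hφ1 : ∀ x, -π < φ x ∧ φ x ≤ π := fun x => by
    have h := (AddCircle.equivIoc (2 * π) (-π) (x - c - (π : ℝ))).2
    exact ⟨h.1, by have := h.2; simp only [φ]; linarith⟩
  have hφ2 : ∀ x, ((φ x : ℝ) : S1) = x - c - ((π : ℝ) : S1) := fun x => AddCircle.coe_equivIoc
  have hφ3 : ∀ x ∈ X, |φ x| ≤ π - r := by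
    intro x hx
    have h1 := hc x hx
    rw [dist_eq_norm] at h1
    obtain ⟨h2, h3⟩ := hφ1 x
    rcases le_total 0 (φ x) with h0 | h0
    · have h4 : x - c = ((φ x - π : ℝ) : S1) := by
        rw [AddCircle.coe_sub, hφ2]
        have h5 : ((π : ℝ) : S1) + ((π : ℝ) : S1) = 0 := by
          rw [← AddCircle.coe_add, ← two_mul]; exact AddCircle.coe_period _
        have h6 : x - c - ((π : ℝ) : S1) - ((π : ℝ) : S1) =
          x - c - (((π : ℝ) : S1) + ((π : ℝ) : S1)) := by abel
        rw [h6, h5, sub_zero]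
      rw [h4] at h1
      have h5 := (norm_cases (t := φ x - π) (by rw [abs_of_nonpos (by linarith)]; linarith)).1
      rw [abs_of_nonpos (by linarith : φ x - π ≤ 0)] at h5
      rw [abs_of_nonneg h0]
      linarith
    · have h4 : x - c = ((φ x + π : ℝ) : S1) := by
        rw [AddCircle.coe_add, hφ2]; abel
      rw [h4] at h1
      have h5 := (norm_cases (t := φ x + π) (by rw [abs_of_nonneg (by linarith)]; linarith)).1
      rw [abs_of_nonneg (by linarith : 0 ≤ φ x + π)] at h5
      rw [abs_of_nonpos h0]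
      linarith
  have hdist : ∀ x y : S1, dist x y = ‖((φ x - φ y : ℝ) : S1)‖ := by
    intro x y
    rw [dist_eq_norm, AddCircle.coe_sub, hφ2, hφ2]
    congr 1; abel
  -- the lift
  let F : S1 → ℝ := fun p => φ (f p).1
  have hFr : ∀ p, |F p| ≤ π - r := fun p => hφ3 _ (f p).2
  have hFdiff : ∀ p q, |F p - F q| ≤ 2 * π - 2 * r := by
    intro p q
    have := abs_sub (F p) (F q)
    have := hFr p
    have := hFr q
    linarith
  have hrpos : 0 < r := by linarith
  have hA : ∀ p q, |dist (f p).1 (f q).1 - dist p q| ≤ δ := fun p q =>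
    hδ (f p, p) (hf p) (f q, q) (hf q)
  have hB : ∀ η, 0 ≤ η → δ + η < 2 * r → ∀ p q, dist p q ≤ η → |F p - F q| ≤ δ + η := by
    intro η hη hηr p q hpq
    have h1 : dist (f p).1 (f q).1 ≤ δ + η := by
      have := (abs_le.mp (hA p q)).2
      linarith
    rw [hdist] at h1
    have h2 := hFdiff p q
    rcases (norm_cases (t := F p - F q) (by linarith)).2 with h3 | h3
    · rw [← h3]; exact h1
    · exfalso
      change ‖((F p - F q : ℝ) : S1)‖ ≤ δ + η at h1
      rw [h3] at h1
      linarith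
  have hC : ∀ p q, dist p q - δ ≤ |F p - F q| := by
    intro p q
    have h1 := (abs_le.mp (hA p q)).1
    have h2 := (norm_cases (t := F p - F q) (by have := hFdiff p q; linarith)).1
    have h3 : dist (f p).1 (f q).1 = ‖((F p - F q : ℝ) : S1)‖ := hdist _ _
    rw [h3] at h1
    linarith
  -- H
  let H : S1 → ℝ := fun p => F p - F (p + (π : ℝ))
  have hH : ∀ p, π - δ ≤ |H p| := fun p => by
    have := hC p (p + (π : ℝ))
    rw [dist_antipode] at this
    exact this
  have hHneg : ∀ p, H (p + (π : ℝ)) = - H p := by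
    intro p
    have h5 : ((π : ℝ) : S1) + ((π : ℝ) : S1) = 0 := by
      rw [← AddCircle.coe_add, ← two_mul]; exact AddCircle.coe_period _
    have h6 : p + ((π : ℝ) : S1) + ((π : ℝ) : S1) = p := by rw [add_assoc, h5, add_zero]
    simp only [H, h6]; ring
  -- choose η
  obtain ⟨η, hη0, hη1, hη2⟩ : ∃ η : ℝ, 0 < η ∧ δ + η < 2 * r ∧ 3 * δ + 2 * η < 2 * π := by
    refine ⟨min ((2 * r - δ) / 2) ((2 * π - 3 * δ) / 3), ?_, ?_, ?_⟩
    · apply lt_min <;> linarith
    · have := min_le_left ((2 * r - δ) / 2) ((2 * π - 3 * δ) / 3)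
      linarith
    · have := min_le_right ((2 * r - δ) / 2) ((2 * π - 3 * δ) / 3)
      linarith
  -- two close points with opposite signs
  have hpair : ∀ p q, dist p q ≤ η → 0 < H p → H q < 0 → False := by
    intro p q hpq hp0 hq0
    have h1 := hH p
    have h2 := hH q
    rw [abs_of_pos hp0] at h1
    rw [abs_of_neg hq0] at h2
    have h3 := hB η hη0.le hη1 p q hpq
    have h4 := hB η hη0.le hη1 (p + (π : ℝ)) (q + (π : ℝ)) (by rw [dist_add_right]; exact hpq)
    have h5 := hC p (q + (π : ℝ))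
    have h6 : π - η ≤ dist p (q + (π : ℝ)) := by
      have := dist_triangle q p (q + (π : ℝ))
      rw [dist_antipode, dist_comm q p] at this
      linarith
    simp only [H] at h1 h2
    rw [abs_le] at h3 h4
    rcases le_total (F (q + (π : ℝ))) (F p) with h7 | h7
    · rw [abs_of_nonneg (by linarith)] at h5
      linarith [h3.2]
    · rw [abs_of_nonpos (by linarith)] at h5
      linarith [h4.1]
  have hH0 : ∀ p, H p ≠ 0 := by
    intro p h0
    have := hH p
    rw [h0, abs_zero] at this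
    linarith
  -- discrete continuity along the real line
  obtain ⟨N, hN⟩ := exists_nat_gt (π / η)
  have hNpos : 0 < (N : ℝ) := lt_trans (by positivity) hN
  have hstep : π / N ≤ η := by
    rw [div_le_iff₀ hNpos]
    rw [div_lt_iff₀ hη0] at hN
    linarith
  let P : ℕ → S1 := fun i => ((i * (π / N) : ℝ) : S1)
  have hPd : ∀ i, dist (P i) (P (i + 1)) ≤ η := by
    intro i
    rw [dist_comm, dist_eq_norm]
    have h1 : P (i + 1) - P i = ((π / N : ℝ) : S1) := by
      simp only [P]
      rw [← AddCircle.coe_sub]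
      congr 1; push_cast; ring
    rw [h1]
    have hN1 : (1 : ℝ) ≤ N := by
      have : 0 < N := by exact_mod_cast hNpos
      exact_mod_cast this
    have h0 : 0 ≤ π / N := by positivity
    have h2 : π / N ≤ π := div_le_self hp.le hN1
    have h3 := (norm_cases (t := π / N) (by rw [abs_of_nonneg h0]; linarith)).1
    rw [abs_of_nonneg h0] at h3
    linarith
  have hsame : ∀ i, (0 < H (P i) ↔ 0 < H (P 0)) := by
    intro i
    induction i with
    | zero => rfl
    | succ i ih =>
      rw [← ih]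
      constructor
      · intro h
        by_contra h'
        have h'' : H (P i) < 0 := lt_of_le_of_ne (not_lt.mp h') (hH0 _)
        exact hpair (P (i + 1)) (P i) (by rw [dist_comm]; exact hPd i) h h''
      · intro h
        by_contra h'
        have h'' : H (P (i + 1)) < 0 := lt_of_le_of_ne (not_lt.mp h') (hH0 _)
        exact hpair (P i) (P (i + 1)) (hPd i) h h''
  have hPN : P N = P 0 + ((π : ℝ) : S1) := by
    simp only [P]
    rw [← AddCircle.coe_add]
    congr 1; push_cast; field_simp; ring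
  have h1 := hsame N
  rw [hPN, hHneg] at h1
  rcases lt_or_gt_of_ne (hH0 (P 0)) with h2 | h2
  · have := h1.mp (by linarith)
    linarith
  · have := h1.mpr h2
    linarith

theorem bdd (X : Set S1) (hX : X.Nonempty) : BddAbove (range (fun p : S1 => Metric.infDist p X)) := by
  refine ⟨π, ?_⟩
  rintro _ ⟨p, rfl⟩
  obtain ⟨x, hx⟩ := hX
  exact (Metric.infDist_le_dist_of_mem hx).trans (dist_le_pi _ _)

theorem hDist_nonneg (X : Set S1) : 0 ≤ hDist X := Real.iSup_nonneg (fun _ => Metric.infDist_nonneg)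

theorem upper (X : Set S1) (hX : X.Nonempty) : ghDist X S1 ≤ hDist X := by
  have h0 := hDist_nonneg X
  have key : ∀ η > 0, sInf {δ : ℝ | 0 ≤ δ ∧ ∃ R : Set (X × S1), IsCorrespondence R ∧
    ∀ a ∈ R, ∀ b ∈ R, |dist a.1 b.1 - dist a.2 b.2| ≤ δ} ≤ 2 * hDist X + η := by
    intro η hη
    apply csInf_le ⟨0, fun δ hδ => hδ.1⟩
    refine ⟨by linarith, {a | dist a.1.1 a.2 ≤ hDist X + η / 2}, ⟨?_, ?_⟩, ?_⟩
    · intro x
      refine ⟨x.1, ?_⟩
      simp only [mem_ofPred_eq, dist_self]
      linarith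
    · intro p
      have h1 : Metric.infDist p X < hDist X + η / 2 := by
        have : Metric.infDist p X ≤ hDist X := le_ciSup (bdd X hX) p
        linarith
      obtain ⟨x, hx, hxp⟩ := (Metric.infDist_lt_iff hX).mp h1
      refine ⟨⟨x, hx⟩, ?_⟩
      simp only [mem_ofPred_eq]
      rw [dist_comm]; exact hxp.le
    · intro a ha b hb
      simp only [mem_ofPred_eq] at ha hb
      have h1 := dist_triangle4 a.1.1 a.2 b.2 b.1.1
      have h2 := dist_triangle4 a.2 a.1.1 b.1.1 b.2
      rw [dist_comm b.2 b.1.1] at h1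
      rw [dist_comm a.2 a.1.1] at h2
      have h3 : dist a.1 b.1 = dist a.1.1 b.1.1 := rfl
      rw [h3, abs_le]
      constructor <;> linarith
  have h1 := le_of_forall_pos_le_add key
  unfold ghDist
  linarith

theorem lower_bound (X : Set S1) (hX : X.Nonempty) : min (hDist X) (π / 3) ≤ ghDist X S1 := by
  have h1 : 2 * min (hDist X) (π / 3) ≤ sInf {δ : ℝ | 0 ≤ δ ∧ ∃ R : Set (X × S1),
      IsCorrespondence R ∧ ∀ a ∈ R, ∀ b ∈ R, |dist a.1 b.1 - dist a.2 b.2| ≤ δ} := by
    apply le_csInf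
    · obtain ⟨x0, hx0⟩ := hX
      refine ⟨π, Real.pi_pos.le, univ, ⟨fun x => ⟨0, mem_univ _⟩, fun y => ⟨⟨x0, hx0⟩, mem_univ _⟩⟩,
        ?_⟩
      intro a _ b _
      have h1 : dist a.1 b.1 ≤ π := dist_le_pi a.1.1 b.1.1
      have h2 : dist a.2 b.2 ≤ π := dist_le_pi a.2 b.2
      have h3 : 0 ≤ dist a.1 b.1 := dist_nonneg
      have h4 : 0 ≤ dist a.2 b.2 := dist_nonneg
      rw [abs_le]
      constructor <;> linarith
    · rintro δ ⟨hδ0, R, hR, hδ⟩
      by_contra hlt
      push Not at hlt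
      have h2 := min_le_left (hDist X) (π / 3)
      have h3 := min_le_right (hDist X) (π / 3)
      have h4 : δ / 2 < hDist X := by linarith
      obtain ⟨c, hc⟩ := exists_lt_of_lt_ciSup h4
      have h5 := lower hR hδ0 hδ (c := c) (r := Metric.infDist c X)
        (fun x hx => by rw [dist_comm]; exact Metric.infDist_le_dist_of_mem hx) (by linarith)
      linarith
  unfold ghDist
  linarith

/-- For every nonempty `X ⊆ S^1`: `min(d_H(X, S^1), π/3) ≤ d_GH(X, S^1) ≤ d_H(X, S^1)`; in
particular `d_GH(X, S^1) = d_H(X, S^1)` whenever `d_H(X, S^1) ≤ π/3`. -/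
theorem result (X : Set S1) (hX : X.Nonempty) :
    (min (hDist X) (π / 3) ≤ ghDist X S1 ∧ ghDist X S1 ≤ hDist X) ∧
    (hDist X ≤ π / 3 → ghDist X S1 = hDist X) := by
  refine ⟨⟨lower_bound X hX, upper X hX⟩, fun h => le_antisymm (upper X hX) ?_⟩
  have := lower_bound X hX
  rwa [min_eq_left h] at this

end Pool.Agent.Results.MP_124474_gt.Main
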